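import Pool.Agent.Helper38.WY.Goals2

/-!
# Project WY, packet Y_SIT: `SitB` gives `SitG`.
-/

set_option autoImplicit false
set_option linter.unusedSectionVars false
set_option linter.unusedVariables false

namespace Pool.Agent.Helper91.WY

open NumberField Polynomial Module IsDedekindDomain
open Pool.Agent.Helper51.RP Pool.Agent.Helper42.RD Pool.Agent.Helper42.PP Pool.Agent.Helper42.PP1
open Pool.Agent.Helper42.PB Pool.Agent.Helper42.PW Pool.Agent.Helper38.WY

section general

variable {K E L : Type} [Field K] [Field E] [Field L] [Algebra K E] [Algebra K L] [Algebra E L]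
  [IsScalarTower K E L] [Normal K E]

/-- Commutators of `Gal(L/K)` are trivial on `E` if `Gal(E/K)` is commutative. -/
theorem triv_of_comm (hc : ∀ a b : E ≃ₐ[K] E, a * b = b * a) (g h : L ≃ₐ[K] L) (x : E) :
    (g * h * g⁻¹ * h⁻¹) (algebraMap E L x) = algebraMap E L x := by
  have h1 : AlgEquiv.restrictNormalHom E (g * h * g⁻¹ * h⁻¹) = 1 := by
    rw [map_mul, map_mul, map_mul, map_inv, map_inv,
      hc (AlgEquiv.restrictNormalHom E g) (AlgEquiv.restrictNormalHom E h), mul_inv_cancel_right,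
      mul_inv_cancel]
  have h2 : algebraMap E L (AlgEquiv.restrictNormalHom E (g * h * g⁻¹ * h⁻¹) x) =
      (g * h * g⁻¹ * h⁻¹) (algebraMap E L x) := AlgEquiv.restrictNormal_commutes _ E x
  rw [← h2, h1]
  rfl

theorem comm_of {G : Type} [Group G] {g h : G} (H : g * h * g⁻¹ * h⁻¹ = 1) : g * h = h * g := by
  have h1 : g * h * g⁻¹ = h := mul_inv_eq_one.1 H
  exact mul_inv_eq_iff_eq_mul.1 h1

/-- The group of a field generated by a root of unity is commutative. -/
theorem comm_cyc {p : ℕ} {ε : E} (hp : p ≠ 0) (hε : IsPrimitiveRoot ε p)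
    (gen : ∀ σ : E ≃ₐ[K] E, σ ε = ε → σ = 1) (a b : E ≃ₐ[K] E) : a * b = b * a := by
  have : NeZero p := ⟨hp⟩
  have hpow : ∀ σ : E ≃ₐ[K] E, ∃ n : ℕ, σ ε = ε ^ n := by
    intro σ
    obtain ⟨i, -, hi⟩ := hε.eq_pow_of_pow_eq_one (ξ := σ ε) (by rw [← map_pow, hε.pow_eq_one, map_one])
    exact ⟨i, hi.symm⟩
  obtain ⟨n, hn⟩ := hpow a
  obtain ⟨m, hm⟩ := hpow b
  have h1 : (a * b) ε = (b * a) ε := by
    rw [AlgEquiv.mul_apply, AlgEquiv.mul_apply, hm, hn, map_pow, map_pow, hn, hm, ← pow_mul,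
      ← pow_mul, mul_comm]
  have h2 : (b * a)⁻¹ * (a * b) = 1 := by
    apply gen
    rw [AlgEquiv.mul_apply, h1, ← AlgEquiv.mul_apply, inv_mul_cancel]
    rfl
  exact (inv_mul_eq_one.1 h2).symm

end general

section res

variable {K M₁ J M₂ : Type} [Field K] [NumberField K] [Field M₁] [NumberField M₁] [Field J]
  [NumberField J] [Field M₂] [NumberField M₂] [Algebra K M₁] [Algebra K J] [Algebra K M₂]
  [Algebra M₁ M₂] [Algebra J M₂] [IsScalarTower K M₁ M₂] [IsScalarTower K J M₂] [IsGalois K J]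
  [IsGalois K M₂]

variable (K M₁ J M₂) in
/-- The restriction to `J`. -/
noncomputable def rJ : (M₂ ≃ₐ[M₁] M₂) →* (J ≃ₐ[K] J) :=
  (AlgEquiv.restrictNormalHom J).comp (AlgEquiv.restrictScalarsHom K)

theorem rJ_comm (g : M₂ ≃ₐ[M₁] M₂) (x : J) :
    algebraMap J M₂ (rJ K M₁ J M₂ g x) = g (algebraMap J M₂ x) :=
  AlgEquiv.restrictNormal_commutes (g.restrictScalars K) J x

theorem rJ_inj (hlin : ∀ g : M₂ ≃ₐ[K] M₂,
    (∀ x : M₁, g (algebraMap M₁ M₂ x) = algebraMap M₁ M₂ x) →
    (∀ x : J, g (algebraMap J M₂ x) = algebraMap J M₂ x) → g = 1) :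
    Function.Injective (rJ K M₁ J M₂) := by
  rw [injective_iff_map_eq_one]
  intro g hg
  have h1 := hlin (g.restrictScalars K) (fun x => g.commutes x) (fun x => by
    have h2 := rJ_comm (K := K) g x
    rw [hg] at h2
    exact h2.symm)
  apply AlgEquiv.ext
  intro x
  exact DFunLike.congr_fun h1 x

theorem deg_of {p l : ℕ} (hJ : finrank K J = p ^ l)
    (hcop : (finrank K M₁).Coprime p) (hinj : Function.Injective (rJ K M₁ J M₂)) :
    finrank M₁ M₂ = p ^ l := by
  have hG : IsGalois M₁ M₂ := IsGalois.tower_top_of_isGalois K M₁ M₂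
  have h1 : Nat.card (M₂ ≃ₐ[M₁] M₂) = finrank M₁ M₂ := IsGalois.card_aut_eq_finrank _ _
  have h2 : Nat.card (J ≃ₐ[K] J) = p ^ l := by rw [← hJ]; exact IsGalois.card_aut_eq_finrank _ _
  have h3 : finrank M₁ M₂ ∣ p ^ l := by
    rw [← h1, ← h2]
    exact Subgroup.card_dvd_of_injective _ hinj
  have h4 : p ^ l ∣ finrank K M₁ * finrank M₁ M₂ := by
    rw [finrank_mul_finrank, ← hJ, ← finrank_mul_finrank K J M₂]
    exact Dvd.intro _ rfl
  have h5 : p ^ l ∣ finrank M₁ M₂ :=
    Nat.Coprime.dvd_of_dvd_mul_left (Nat.Coprime.pow_left l hcop.symm) h4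
  exact Nat.dvd_antisymm h3 h5

end res

/-- The product of two elements of type `ω`. -/
theorem om_mul' {p : ℕ} {K K₁ : Type} [Field K] [Field K₁] [Algebra K K₁] {ε a b : K₁}
    (hp : p.Prime) (hε : IsPrimitiveRoot ε p) (ha0 : a ≠ 0) (ha : OmType p K ε a)
    (hb : OmType p K ε b) : OmType p K ε (a * b) := by
  intro τ
  obtain ⟨n, c, hn, hc⟩ := ha τ
  obtain ⟨n', c', hn', hc'⟩ := hb τ
  by_cases hb0 : b = 0
  · refine ⟨n, 0, hn, ?_⟩
    rw [hb0, mul_zero, map_zero, zero_pow hp.ne_zero, mul_zero]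
  have h1 : ε ^ n = ε ^ n' := by rw [← hn, hn']
  have h0 : ε ≠ 0 := hε.ne_zero hp.ne_zero
  have key : ∀ m m' : ℕ, m ≤ m' → ε ^ m = ε ^ m' → ∃ k, m' = m + p * k := by
    intro m m' hmm h
    obtain ⟨d, rfl⟩ := Nat.exists_eq_add_of_le hmm
    rw [pow_add] at h
    have h2 : ε ^ d = 1 := by
      have h3 : ε ^ m ≠ 0 := pow_ne_zero _ h0
      exact (mul_right_eq_self₀.1 h.symm).resolve_right h3
    obtain ⟨k, hk⟩ := hε.dvd_of_pow_eq_one _ h2
    exact ⟨k, by rw [hk]⟩
  rcases le_total n n' with h | h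
  · obtain ⟨k, rfl⟩ := key n n' h h1
    refine ⟨n, c * (b ^ k * c'), hn, ?_⟩
    rw [map_mul, hc, hc']
    ring
  · obtain ⟨k, rfl⟩ := key n' n h h1.symm
    refine ⟨n', a ^ k * c * c', hn', ?_⟩
    rw [map_mul, hc, hc']
    ring

theorem y_sit : Y_SIT := by
  intro p _ K M K₁ M₁ J M₂ _ _ _ _ _ _ _ _ _ _ _ _ _ _ _ _ _ _ _ _ _ _ _ ε δ P a₀ hB a ha
  have hp : p.Prime := Fact.out
  have hS := hB.sit
  have := hS.st1
  have := hS.st2
  have := hS.gM
  have := hS.gK
  have := hS.gMK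
  have := hB.t1
  have := hB.t2
  have := hB.t3
  have := hB.t4
  have := hB.gJ
  have := hB.gM₂
  have := hB.cycJ
  have hKMM : IsScalarTower K M M₂ := by
    refine IsScalarTower.of_algebraMap_eq fun x => ?_
    rw [IsScalarTower.algebraMap_apply K M₁ M₂, IsScalarTower.algebraMap_apply K M M₁,
      IsScalarTower.algebraMap_apply M M₁ M₂]
  have hKK : IsScalarTower K K₁ M₂ := by
    refine IsScalarTower.of_algebraMap_eq fun x => ?_
    rw [IsScalarTower.algebraMap_apply K M₁ M₂, IsScalarTower.algebraMap_apply K K₁ M₁,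
      IsScalarTower.algebraMap_apply K₁ M₁ M₂]
  -- commutativity
  have cM : ∀ a b : M ≃ₐ[K] M, a * b = b * a := by
    have h1 : Nat.card (M ≃ₐ[K] M) = finrank K M := IsGalois.card_aut_eq_finrank _ _
    have h2 : IsCyclic (M ≃ₐ[K] M) := isCyclic_of_orderOf_eq_card δ (by rw [h1, hS.ord])
    let _ : CommGroup (M ≃ₐ[K] M) := IsCyclic.commGroup
    exact fun a b => mul_comm a b
  have cK : ∀ a b : K₁ ≃ₐ[K] K₁, a * b = b * a := comm_cyc hp.ne_zero hS.prim hS.gen
  have cJ : ∀ a b : J ≃ₐ[K] J, a * b = b * a := by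
    let _ : CommGroup (J ≃ₐ[K] J) := IsCyclic.commGroup
    exact fun a b => mul_comm a b
  have cM₁ : ∀ a b : M₁ ≃ₐ[K] M₁, a * b = b * a := fun a b =>
    comm_of (hS.lin _ (triv_of_comm cM a b) (triv_of_comm cK a b))
  have cM₂ : ∀ a b : M₂ ≃ₐ[K] M₂, a * b = b * a := fun a b =>
    comm_of (hB.lin₂ _ (triv_of_comm cM₁ a b) (triv_of_comm cJ a b))
  have hcop : (finrank K M₁).Coprime p := by
    rw [← finrank_mul_finrank K M M₁]
    exact Nat.Coprime.mul_left hS.copm hS.c1
  have hinj : Function.Injective (rJ K M₁ J M₂) := rJ_inj hB.lin₂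
  have hmap : algebraMap M₁ M₂ (algebraMap K₁ M₁ ε) = algebraMap K₁ M₂ ε :=
    (IsScalarTower.algebraMap_apply K₁ M₁ M₂ ε).symm
  have hprim₂ : IsPrimitiveRoot (algebraMap K₁ M₂ ε) p :=
    hS.prim.map_of_injective (algebraMap K₁ M₂).injective
  exact
    { s1 := hS.st1
      s2 := hB.t1
      s3 := hB.t2
      s4 := hKMM
      gM := hS.gM
      gM₁ := hS.gMK
      gM₂ := hB.gM₂
      comm := cM₂
      cop := hcop
      cyc₂ := isCyclic_of_injective _ hinj
      deg₂ := by
        obtain ⟨l, hl⟩ := hB.degJ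
        exact ⟨l, deg_of hl hcop hinj⟩
      prim := hS.prim.map_of_injective (algebraMap K₁ M₁).injective
      lin := by
        intro g hg hgε
        refine hS.lin g hg fun x => ?_
        have h1 : ∀ y : K₁, algebraMap K₁ M₁ (AlgEquiv.restrictNormal g K₁ y) =
            g (algebraMap K₁ M₁ y) := fun y => AlgEquiv.restrictNormal_commutes g K₁ y
        have h2 : AlgEquiv.restrictNormal g K₁ = 1 := by
          apply hS.gen
          apply (algebraMap K₁ M₁).injective
          rw [h1, hgε]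
        rw [← h1, h2]
        rfl
      ord := hS.ord
      irr := hS.irr
      dvdP := hS.dvdP
      ne := mul_ne_zero a₀.ne_zero ((_root_.map_ne_zero _).2 a.ne_zero)
      om := by
        rw [hmap]
        refine om_mul' hp hprim₂ a₀.ne_zero hB.om ?_
        intro g
        obtain ⟨n, c, hn, hc⟩ := ha (AlgEquiv.restrictNormal g K₁)
        have hgK : ∀ y : K₁, algebraMap K₁ M₂ (AlgEquiv.restrictNormal g K₁ y) =
            g (algebraMap K₁ M₂ y) := fun y => AlgEquiv.restrictNormal_commutes g K₁ y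
        refine ⟨n, algebraMap K₁ M₂ c, ?_, ?_⟩
        · rw [← hgK, hn, map_pow]
        · rw [← hgK, hc, map_mul, map_pow, map_pow]
      cyc := by
        intro σ hσ c hc
        have h1 : σ (algebraMap K₁ M₂ (a : K₁)) = algebraMap K₁ M₂ (a : K₁) := by
          rw [IsScalarTower.algebraMap_apply K₁ M₁ M₂]
          exact σ.commutes _
        have ha1 : algebraMap K₁ M₂ (a : K₁) ≠ 0 := (_root_.map_ne_zero _).2 a.ne_zero
        have h2 : (σ.restrictScalars K) (a₀ : M₂) = (a₀ : M₂) * c ^ p := by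
          have h3 : σ (a₀ : M₂) * algebraMap K₁ M₂ (a : K₁) =
              ((a₀ : M₂) * c ^ p) * algebraMap K₁ M₂ (a : K₁) := by
            rw [map_mul, h1] at hc
            rw [hc]
            ring
          exact mul_right_cancel₀ ha1 h3
        have hinj' : Function.Injective
            (AlgEquiv.restrictScalarsHom K : (M₂ ≃ₐ[M₁] M₂) →* (M₂ ≃ₐ[K] M₂)) := by
          intro g h hgh
          apply AlgEquiv.ext
          intro x
          exact DFunLike.congr_fun hgh x
        have h4 : orderOf (σ.restrictScalars K) = orderOf σ :=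
          orderOf_injective (AlgEquiv.restrictScalarsHom K) hinj' σ
        have h5 : ∀ i : ℕ, ((σ.restrictScalars K) ^ i) c = (σ ^ i) c := by
          intro i
          have h6 : (AlgEquiv.restrictScalarsHom K (σ ^ i) : M₂ ≃ₐ[K] M₂) =
              (AlgEquiv.restrictScalarsHom K σ) ^ i := map_pow _ _ _
          exact (DFunLike.congr_fun h6 c).symm
        have h7 := hB.cyc (σ.restrictScalars K) (fun x => σ.commutes x) (fun h => hσ (hinj' (by
          rw [map_one]
          exact h))) c h2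
        rw [h4] at h7
        rwa [Finset.prod_congr rfl fun i _ => h5 i] at h7 }

end Pool.Agent.Helper91.WY
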